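import Mathlib

/-!
# MP_e848aa_gt: closed images of metalindelof spaces and covers of size at most aleph one

The property that every open cover of cardinality at most `ℵ₁` has a point-countable open
refinement is preserved by closed mappings. Hence a closed image `Y` of a metalindelof space is
metalindelof if every open cover of `Y` has a subcover of cardinality at most `ℵ₁`.
-/

set_option autoImplicit false

namespace Pool.Agent.Helper907.CoversAlephOne

open Set Topology
open scoped Cardinal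

universe u v

/-- `V` is a point-countable open cover which refines `U`. -/
def PCRefinement {X : Type u} [TopologicalSpace X] (U V : Set (Set X)) : Prop :=
  (∀ s ∈ V, IsOpen s) ∧ ⋃₀ V = univ ∧ (∀ s ∈ V, ∃ t ∈ U, s ⊆ t) ∧
    ∀ x : X, {s | s ∈ V ∧ x ∈ s}.Countable

/-- Every open cover of cardinality at most `ℵ₁` has a point-countable open refinement. -/
def AlephOneMetalindelof (X : Type u) [TopologicalSpace X] : Prop :=
  ∀ U : Set (Set X), (∀ s ∈ U, IsOpen s) → ⋃₀ U = univ → #U ≤ ℵ₁ → ∃ V, PCRefinement U V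

/-- A set of cardinality at most `ℵ₁` has a well-order with countable initial segments. -/
lemma exists_order {α : Type u} (h : #α ≤ ℵ₁) :
    ∃ r : α → α → Prop, IsWellOrder α r ∧ ∀ a, {b | r b a}.Countable := by
  obtain ⟨r, hr, hord⟩ := Cardinal.exists_ord_eq α
  refine ⟨r, hr, fun a => ?_⟩
  have h1 : Ordinal.typein r a < (#α).ord := by
    rw [hord]
    exact Ordinal.typein_lt_type r a
  have h2 : (Ordinal.typein r a).card < #α := Cardinal.lt_ord.1 h1
  have h3 : (Ordinal.typein r a).card = #{b // r b a} := by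
    exact Ordinal.card_typein a
  rw [h3] at h2
  have h4 : #{b // r b a} < ℵ₁ := h2.trans_le h
  have h5 : #{b // r b a} ≤ ℵ₀ := by
    rw [← Cardinal.succ_aleph0] at h4
    exact Order.lt_succ_iff.1 h4
  exact Cardinal.le_aleph0_iff_set_countable.1 h5

/-- Closed mappings preserve `ℵ₁`-metalindelofness. -/
theorem closed_image {X : Type u} {Y : Type v} [TopologicalSpace X] [TopologicalSpace Y]
    (f : X → Y) (hf : Continuous f) (hc : IsClosedMap f) (hs : Function.Surjective f)
    (hX : AlephOneMetalindelof X) : AlephOneMetalindelof Y := by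
  classical
  intro U hU hcov hcard
  obtain ⟨r, hr, hrc⟩ := exists_order hcard
  -- the first member which contains a point
  have hex : ∀ y : Y, ∃ a : U, y ∈ (a : Set Y) := by
    intro y
    have : y ∈ ⋃₀ U := by rw [hcov]; trivial
    obtain ⟨s, hs, hy⟩ := this
    exact ⟨⟨s, hs⟩, hy⟩
  have hmin : ∀ y : Y, ∃ a : U, y ∈ (a : Set Y) ∧ ∀ b : U, y ∈ (b : Set Y) → ¬ r b a := by
    intro y
    exact hr.wf.has_min {a : U | y ∈ (a : Set Y)} (hex y)
  choose A hA hA' using hmin
  -- the increasing cover of `X`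
  let P : U → Set X := fun a => {x | ∃ b : U, (b = a ∨ r b a) ∧ f x ∈ (b : Set Y)}
  have hPo : ∀ a, IsOpen (P a) := by
    intro a
    have : P a = ⋃ b : U, ⋃ (_ : b = a ∨ r b a), f ⁻¹' (b : Set Y) := by
      ext x
      simp [P]
    rw [this]
    exact isOpen_iUnion fun b => isOpen_iUnion fun _ => (hU _ b.2).preimage hf
  obtain ⟨W, hWo, hWc, hWr, hWp⟩ := hX (range P) (by rintro s ⟨a, rfl⟩; exact hPo a) (by
      apply Subset.antisymm (subset_univ _)
      intro x _
      obtain ⟨a, ha⟩ := hex (f x)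
      exact ⟨P a, ⟨a, rfl⟩, a, Or.inl rfl, ha⟩) (by
      have h1 : Cardinal.lift.{v} #(range P) ≤ Cardinal.lift.{u} #U := Cardinal.mk_range_le_lift
      have h2 : Cardinal.lift.{u} #U ≤ Cardinal.lift.{u} ℵ₁ := Cardinal.lift_le.2 hcard
      have h3 := h1.trans h2
      rw [Cardinal.lift_aleph] at h3
      rw [← Cardinal.lift_le.{v}, Cardinal.lift_aleph]
      simpa using h3)
  rcases isEmpty_or_nonempty U with hE | hne
  · have hY : IsEmpty Y := ⟨fun y => hE.elim (A y)⟩
    exact ⟨∅, by simp, by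
      apply Subset.antisymm (subset_univ _)
      intro y _
      exact hY.elim y, by simp, fun y => hY.elim y⟩
  have hidx : ∀ w : Set X, ∃ a : U, w ∈ W → w ⊆ P a := by
    intro w
    by_cases hw : w ∈ W
    · obtain ⟨t, ⟨a, rfl⟩, ht⟩ := hWr w hw
      exact ⟨a, fun _ => ht⟩
    · exact ⟨hne.some, fun h => absurd h hw⟩
  choose i hi using hidx
  let O : Y → Set X := fun y => ⋃₀ {w | w ∈ W ∧ (w ∩ f ⁻¹' {y}).Nonempty}
  have hOo : ∀ y, IsOpen (O y) := fun y => isOpen_sUnion fun w hw => hWo w hw.1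
  let G : Y → Set Y := fun y => (f '' (O y)ᶜ)ᶜ
  have hGo : ∀ y, IsOpen (G y) := fun y => (hc _ (hOo y).isClosed_compl).isOpen_compl
  have hGy : ∀ y, y ∈ G y := by
    rintro y ⟨x, hx, hxy⟩
    apply hx
    have : x ∈ ⋃₀ W := by rw [hWc]; trivial
    obtain ⟨w, hw, hxw⟩ := this
    exact ⟨w, ⟨hw, x, hxw, hxy⟩, hxw⟩
  let V : U → Set Y := fun a => (a : Set Y) ∩ ⋃ y ∈ {y | A y = a}, G y
  refine ⟨range V, ?_, ?_, ?_, ?_⟩
  · rintro s ⟨a, rfl⟩
    exact (hU _ a.2).inter (isOpen_biUnion fun y _ => hGo y)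
  · apply Subset.antisymm (subset_univ _)
    intro y _
    exact ⟨V (A y), ⟨A y, rfl⟩, hA y, mem_biUnion (rfl : A y = A y) (hGy y)⟩
  · rintro s ⟨a, rfl⟩
    exact ⟨a, a.2, inter_subset_left⟩
  · intro t
    obtain ⟨x, rfl⟩ := hs t
    have hcount : (⋃ w ∈ {w | w ∈ W ∧ x ∈ w}, {b : U | b = i w ∨ r b (i w)}).Countable := by
      refine (hWp x).biUnion fun w _ => ?_
      exact ((countable_singleton (i w)).union (hrc (i w)))
    refine (hcount.image V).mono ?_
    rintro s ⟨⟨a, rfl⟩, -, ht⟩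
    obtain ⟨y, hy, hty⟩ := mem_iUnion₂.1 ht
    refine ⟨a, ?_, rfl⟩
    have hxO : x ∈ O y := by
      by_contra h
      exact hty ⟨x, h, rfl⟩
    obtain ⟨w, ⟨hw, z, hzw, hzy⟩, hxw⟩ := hxO
    refine mem_iUnion₂.2 ⟨w, ⟨hw, hxw⟩, ?_⟩
    obtain ⟨b, hb, hzb⟩ := hi w hw hzw
    have hzy' : f z = y := hzy
    rw [hzy'] at hzb
    have hab : ¬ r b a := by
      have := hA' y b hzb
      rwa [show A y = a from hy] at this
    -- `a ≤ b ≤ i w`
    rcases hb with rfl | hb
    · rcases (trichotomous_of r a (i w)) with h | h | h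
      · exact Or.inr h
      · exact Or.inl h
      · exact absurd h hab
    · rcases (trichotomous_of r a b) with h | h | h
      · exact Or.inr (_root_.trans h hb)
      · rw [h]
        exact Or.inr hb
      · exact absurd h hab

/-- If `f : X → Y` is a closed mapping and `X` is metalindelof, then every open cover of `Y` which
has a subcover of cardinality at most `ℵ₁` has a point-countable open refinement. -/
theorem result {X : Type u} {Y : Type v} [TopologicalSpace X] [TopologicalSpace Y]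
    (f : X → Y) (hf : Continuous f) (hc : IsClosedMap f) (hs : Function.Surjective f)
    (hX : ∀ U : Set (Set X), (∀ s ∈ U, IsOpen s) → ⋃₀ U = univ → #U ≤ ℵ₁ →
      ∃ V, PCRefinement U V)
    (U : Set (Set Y)) (hU : ∀ s ∈ U, IsOpen s)
    (hsub : ∃ U' ⊆ U, ⋃₀ U' = univ ∧ #U' ≤ ℵ₁) : ∃ V, PCRefinement U V := by
  obtain ⟨U', hU', hcov, hcard⟩ := hsub
  obtain ⟨V, h1, h2, h3, h4⟩ := closed_image f hf hc hs hX U' (fun s hs => hU s (hU' hs)) hcov
    hcard
  refine ⟨V, h1, h2, fun s hs => ?_, h4⟩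
  obtain ⟨t, ht, hst⟩ := h3 s hs
  exact ⟨t, hU' ht, hst⟩

end Pool.Agent.Helper907.CoversAlephOne
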